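import Pool.Agent.Run7.h568.MC.Main2e

/-!
# Exactly one AdS convex core with prescribed filling bending multicurves

`P` describes a closed oriented surface cut into discs by a multicurve `α` and a pants
decomposition `β`; `a > 0` and `b ≥ 0` are weights on the components of `α` and `β`, and `α` and
the part of `β` of positive weight fill the surface (so that `β` may be the completion of a
multicurve which fills with `α`).  Then exactly one pair of hyperbolic metrics is such that the
first is the image of the second both by the left earthquake along `Σ a α` and by the right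
earthquake along `Σ b β`.
-/

open Run7.h568.MC

theorem Pool.Agent.Results.MP_a29257_gt.ExactlyOne.result
    {V : Type*} [Fintype V] (P : Pattern V) (a b : V → ℝ)
    (ha : ∀ p, 0 < a p) (ha_rho : ∀ p, a (P.rho p) = a p) (ha_A : ∀ p, a (P.A p) = a p)
    (hb : ∀ p, 0 ≤ b p) (hb_rho : ∀ p, b (P.rho p) = b p) (hb_B : ∀ p, b (P.B p) = b p)
    (hfill : Fills P b) :
    ∃! m : HypMetric P × HypMetric P, LeftQuake P a m.2 m.1 ∧ RightQuake P b m.2 m.1 :=
  Ex.exactly_one a b ha ha_rho ha_A hb hb_rho hb_B hfill
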